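import Pool.Agent.H67M.Sum
import Pool.Agent.C1M.FM3

/-!
# H67M/Avg: the counting function on average (MP_e2def7_nt)
-/

set_option autoImplicit false

namespace Pool.Agent.H67M

open Finset MeasureTheory intervalIntegral

theorem int_inv_sq {b Y : ℝ} (hb : 0 < b) (hbY : b ≤ Y) :
    ∫ x in b..Y, 1 / x ^ 2 = 1 / b - 1 / Y := by
  have h0 : ∀ x ∈ Set.uIcc b Y, x ≠ 0 := by
    intro x hx
    rw [Set.uIcc_of_le hbY] at hx
    have := hx.1
    linarith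
  rw [integral_eq_sub_of_hasDerivAt (f := fun x : ℝ => -x⁻¹)]
  · simp only [one_div]
    ring
  · intro x hx
    have h1 := (hasDerivAt_inv (h0 x hx)).neg
    rw [neg_neg, ← one_div] at h1
    exact h1
  · refine ContinuousOn.intervalIntegrable ?_
    intro x hx
    have h1 := h0 x hx
    exact (ContinuousAt.div continuousAt_const (continuousAt_id.pow 2)
      (pow_ne_zero 2 h1)).continuousWithinAt

theorem int_ind {b Y : ℝ} (hb : 1 < b) (hbY : b ≤ Y) :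
    IntegrableOn (fun x : ℝ => (if b ≤ x then (1 : ℝ) else 0) / x ^ 2) (Set.Ioc 1 Y) ∧
      ∫ x in Set.Ioc 1 Y, (if b ≤ x then (1 : ℝ) else 0) / x ^ 2 = 1 / b - 1 / Y := by
  have hfun : (fun x : ℝ => (if b ≤ x then (1 : ℝ) else 0) / x ^ 2) =
      (Set.Ici b).indicator (fun x : ℝ => 1 / x ^ 2) := by
    ext x
    by_cases h : b ≤ x
    · rw [if_pos h, Set.indicator_of_mem (Set.mem_Ici.2 h)]
    · rw [if_neg h, Set.indicator_of_notMem (fun h' => h (Set.mem_Ici.1 h')), zero_div]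
  have hset : Set.Ioc 1 Y ∩ Set.Ici b = Set.Icc b Y := by
    ext x
    simp only [Set.mem_inter_iff, Set.mem_Ioc, Set.mem_Ici, Set.mem_Icc]
    constructor
    · rintro ⟨⟨_, h2⟩, h3⟩
      exact ⟨h3, h2⟩
    · rintro ⟨h1, h2⟩
      exact ⟨⟨by linarith, h2⟩, h1⟩
  have hcont : ContinuousOn (fun x : ℝ => 1 / x ^ 2) (Set.Icc 1 Y) := by
    intro x hx
    have h1 : x ≠ 0 := by
      have := hx.1
      linarith
    exact (ContinuousAt.div continuousAt_const (continuousAt_id.pow 2)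
      (pow_ne_zero 2 h1)).continuousWithinAt
  rw [hfun]
  constructor
  · refine IntegrableOn.indicator ?_ measurableSet_Ici
    exact (hcont.integrableOn_Icc).mono_set Set.Ioc_subset_Icc_self
  · rw [setIntegral_indicator measurableSet_Ici, hset, integral_Icc_eq_integral_Ioc,
      ← integral_of_le hbY]
    exact int_inv_sq (by linarith) hbY

/-- The integral of a counting function. -/
theorem int_count {ι : Type} (F : Finset ι) (b : ι → ℝ) {Y : ℝ}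
    (hb : ∀ i ∈ F, 1 < b i) (hbY : ∀ i ∈ F, b i ≤ Y) (f : ℝ → ℝ)
    (hf : ∀ x, x ≤ Y → f x = ∑ i ∈ F, if b i ≤ x then (1 : ℝ) else 0) :
    IntegrableOn (fun x : ℝ => f x / x ^ 2) (Set.Ioc 1 Y) ∧
      ∫ x in Set.Ioc 1 Y, f x / x ^ 2 = ∑ i ∈ F, (1 / b i - 1 / Y) := by
  have heq : Set.EqOn (fun x : ℝ => f x / x ^ 2)
      (fun x => ∑ i ∈ F, (if b i ≤ x then (1 : ℝ) else 0) / x ^ 2) (Set.Ioc 1 Y) := by
    intro x hx
    simp only
    rw [hf x hx.2, sum_div]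
  constructor
  · rw [integrableOn_congr_fun heq measurableSet_Ioc]
    exact integrable_finsetSum _ fun i hi => (int_ind (hb i hi) (hbY i hi)).1
  · rw [setIntegral_congr_fun measurableSet_Ioc heq,
      integral_finsetSum _ fun i hi => (int_ind (hb i hi) (hbY i hi)).1]
    exact sum_congr rfl fun i hi => (int_ind (hb i hi) (hbY i hi)).2

theorem lin_growth {a : ℕ → ℝ} (h0 : 1 < a 0) (hm : StrictMono a)
    (hs : N44b300f8.Erdos951Prop a) (i : ℕ) : (i : ℝ) + 1 ≤ a i := by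
  induction i with
  | zero =>
    rw [Nat.cast_zero, zero_add]
    exact h0.le
  | succ i ih =>
    have h1 := sub_sep hs (B := {i + 1}) (C := {i}) (by simp)
    simp only [prod_singleton] at h1
    have h2 : a i < a (i + 1) := hm (Nat.lt_succ_self i)
    rw [abs_of_pos (by linarith)] at h1
    push_cast
    linarith

/-- The number of terms up to `x`. -/
noncomputable def cnt (a : ℕ → ℝ) (x : ℝ) : ℕ := {i : ℕ | a i ≤ x}.ncard

/-- The indices of the terms up to `Y`. -/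
noncomputable def idx (a : ℕ → ℝ) (Y : ℝ) : Finset ℕ :=
  (range (⌊Y⌋₊ + 1)).filter fun i => a i ≤ Y

theorem mem_idx {a : ℕ → ℝ} (h0 : 1 < a 0) (hm : StrictMono a)
    (hs : N44b300f8.Erdos951Prop a) {Y : ℝ} {i : ℕ} : i ∈ idx a Y ↔ a i ≤ Y := by
  unfold idx
  rw [mem_filter, mem_range]
  constructor
  · exact fun h => h.2
  · intro h
    refine ⟨?_, h⟩
    have h1 := lin_growth h0 hm hs i
    have h2 : (i : ℝ) ≤ Y := by linarith
    have h3 := Nat.le_floor h2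
    omega

theorem cnt_eq {a : ℕ → ℝ} (h0 : 1 < a 0) (hm : StrictMono a)
    (hs : N44b300f8.Erdos951Prop a) {x Y : ℝ} (hx : x ≤ Y) :
    (cnt a x : ℝ) = ∑ i ∈ idx a Y, if a i ≤ x then (1 : ℝ) else 0 := by
  classical
  rw [← sum_filter, sum_const, nsmul_eq_mul, mul_one]
  congr 1
  unfold cnt
  rw [← Set.ncard_coe_finset]
  congr 1
  ext i
  simp only [Set.mem_ofPred_eq, coe_filter, mem_idx h0 hm hs]
  constructor
  · exact fun h => ⟨h.trans hx, h⟩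
  · exact fun h => h.2

theorem pi_eq {x Y : ℝ} (hx1 : 0 ≤ x) (hx : x ≤ Y) :
    (Nat.primeCounting ⌊x⌋₊ : ℝ) =
      ∑ p ∈ C1M.PR ⌊Y⌋₊, if (p : ℝ) ≤ x then (1 : ℝ) else 0 := by
  classical
  rw [← sum_filter, sum_const, nsmul_eq_mul, mul_one]
  congr 1
  rw [Nat.primeCounting, Nat.primeCounting', Nat.count_eq_card_filter_range]
  congr 1
  ext p
  simp only [mem_filter, mem_range, C1M.mem_PR]
  constructor
  · rintro ⟨h1, h2⟩
    have h3 : p ≤ ⌊x⌋₊ := by omega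
    exact ⟨⟨h3.trans (Nat.floor_le_floor hx), h2⟩, (Nat.le_floor_iff hx1).1 h3⟩
  · rintro ⟨⟨_, h2⟩, h3⟩
    have := (Nat.le_floor_iff hx1).2 h3
    exact ⟨by omega, h2⟩

theorem int_cnt {a : ℕ → ℝ} (h0 : 1 < a 0) (hm : StrictMono a)
    (hs : N44b300f8.Erdos951Prop a) (Y : ℝ) :
    IntegrableOn (fun x : ℝ => (cnt a x : ℝ) / x ^ 2) (Set.Ioc 1 Y) ∧
      ∫ x in Set.Ioc 1 Y, (cnt a x : ℝ) / x ^ 2 = ∑ i ∈ idx a Y, (1 / a i - 1 / Y) :=
  int_count (idx a Y) a (fun i _ => h0.trans_le (hm.monotone (Nat.zero_le i)))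
    (fun i hi => (mem_idx h0 hm hs).1 hi) (fun x => (cnt a x : ℝ))
    fun _ hx => cnt_eq h0 hm hs hx

theorem int_pi {Y : ℝ} (hY : 1 ≤ Y) :
    IntegrableOn (fun x : ℝ => (Nat.primeCounting ⌊x⌋₊ : ℝ) / x ^ 2) (Set.Ioc 1 Y) ∧
      ∫ x in Set.Ioc 1 Y, (Nat.primeCounting ⌊x⌋₊ : ℝ) / x ^ 2 =
        ∑ p ∈ C1M.PR ⌊Y⌋₊, (1 / (p : ℝ) - 1 / Y) := by
  have h1 := int_count (C1M.PR ⌊Y⌋₊) (fun p : ℕ => (p : ℝ)) (Y := Y)
    (fun p hp => by
      have := (C1M.mem_PR.1 hp).2.one_lt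
      exact_mod_cast this)
    (fun p hp => (Nat.le_floor_iff (by linarith)).1 (C1M.mem_PR.1 hp).1)
    (fun x => if 0 ≤ x then (Nat.primeCounting ⌊x⌋₊ : ℝ) else 0)
    (fun x hx => by
      by_cases h : 0 ≤ x
      · rw [if_pos h]
        exact pi_eq h hx
      · rw [if_neg h]
        symm
        refine sum_eq_zero fun p _ => if_neg ?_
        have : (0 : ℝ) ≤ p := Nat.cast_nonneg p
        linarith)
  have heq : Set.EqOn (fun x : ℝ => (if 0 ≤ x then (Nat.primeCounting ⌊x⌋₊ : ℝ) else 0) / x ^ 2)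
      (fun x : ℝ => (Nat.primeCounting ⌊x⌋₊ : ℝ) / x ^ 2) (Set.Ioc 1 Y) := by
    intro x hx
    simp only
    rw [if_pos (by have := hx.1; linarith)]
  constructor
  · exact (integrableOn_congr_fun heq measurableSet_Ioc).1 h1.1
  · rw [← setIntegral_congr_fun measurableSet_Ioc heq]
    exact h1.2

theorem pi_lower {Y : ℝ} (hY : 16 ≤ Y) :
    Real.log (Real.log Y) - 6 ≤ ∑ p ∈ C1M.PR ⌊Y⌋₊, (1 / (p : ℝ) - 1 / Y) := by
  have hY0 : 0 < Y := by linarith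
  have hz : 16 ≤ ⌊Y⌋₊ := Nat.le_floor (by exact_mod_cast hY)
  have hzR : (16 : ℝ) ≤ ⌊Y⌋₊ := by exact_mod_cast hz
  have hYz : Y ≤ ⌊Y⌋₊ + 1 := (Nat.lt_floor_add_one Y).le
  have hzY : (⌊Y⌋₊ : ℝ) ≤ Y := Nat.floor_le hY0.le
  have h4 := C1M.mertens_lower (z := ⌊Y⌋₊) (by omega)
  have hlz : 0 < Real.log ⌊Y⌋₊ := Real.log_pos (by linarith)
  have h5 : Real.log Y ≤ 2 * Real.log ⌊Y⌋₊ := by
    rw [show 2 * Real.log (⌊Y⌋₊ : ℝ) = Real.log ((⌊Y⌋₊ : ℝ) ^ 2) by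
      rw [Real.log_pow]; norm_num]
    refine Real.log_le_log hY0 ?_
    nlinarith
  have h6 : Real.log (Real.log Y) ≤ Real.log 2 + Real.log (Real.log ⌊Y⌋₊) := by
    rw [← Real.log_mul (by norm_num) hlz.ne']
    exact Real.log_le_log (Real.log_pos (by linarith)) h5
  have h7 := Real.log_two_lt_d9
  have h8 : ∑ p ∈ C1M.PR ⌊Y⌋₊, (1 / (p : ℝ) - 1 / Y) =
      (∑ p ∈ C1M.PR ⌊Y⌋₊, 1 / (p : ℝ)) - (C1M.PR ⌊Y⌋₊).card / Y := by
    rw [sum_sub_distrib, sum_const, nsmul_eq_mul]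
    ring
  have h9 : ((C1M.PR ⌊Y⌋₊).card : ℝ) / Y ≤ 1 := by
    rw [div_le_one hY0]
    have h10 : (C1M.PR ⌊Y⌋₊).card ≤ ⌊Y⌋₊ := by
      unfold C1M.PR
      refine (card_filter_le _ _).trans ?_
      rw [Nat.card_Icc]
      omega
    have : ((C1M.PR ⌊Y⌋₊).card : ℝ) ≤ ⌊Y⌋₊ := by exact_mod_cast h10
    linarith
  rw [h8]
  linarith

/-- The average excess over the primes is at most `log log log Y + 16`. -/
theorem average {a : ℕ → ℝ} (h0 : 1 < a 0) (hm : StrictMono a)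
    (hs : N44b300f8.Erdos951Prop a) {Y : ℝ} (hY : 16 ≤ Y) :
    ∫ x in (1 : ℝ)..Y, ((cnt a x : ℝ) - Nat.primeCounting ⌊x⌋₊) / x ^ 2 ≤
      Real.log (Real.log (Real.log Y)) + 16 := by
  have hY1 : 1 ≤ Y := by linarith
  have hY0 : 0 < Y := by linarith
  obtain ⟨hI1, hI2⟩ := int_cnt h0 hm hs Y
  obtain ⟨hJ1, hJ2⟩ := int_pi hY1
  rw [integral_of_le hY1]
  have h1 : (∫ x in Set.Ioc 1 Y, ((cnt a x : ℝ) - Nat.primeCounting ⌊x⌋₊) / x ^ 2) =
      (∫ x in Set.Ioc 1 Y, (cnt a x : ℝ) / x ^ 2) -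
        ∫ x in Set.Ioc 1 Y, (Nat.primeCounting ⌊x⌋₊ : ℝ) / x ^ 2 := by
    rw [← integral_sub hI1 hJ1]
    refine integral_congr_ae (Filter.Eventually.of_forall fun x => ?_)
    simp only
    rw [sub_div]
  have h2 : ∑ i ∈ idx a Y, (1 / a i - 1 / Y) ≤
      Real.log (Real.log Y) + Real.log (Real.log (Real.log Y)) + 10 := by
    refine le_trans (sum_le_sum (g := fun i => 1 / a i) fun i _ => ?_)
      (mertens h0 hm hs hY (idx a Y) fun i hi => (mem_idx h0 hm hs).1 hi)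
    have : 0 < 1 / Y := by positivity
    linarith
  have h3 := pi_lower hY
  rw [h1, hI2, hJ2]
  linarith

end Pool.Agent.H67M
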