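import Pool.Agent.H67M.Low

/-!
# H67M/Div: no divergent excess (MP_e2def7_nt)
-/

set_option autoImplicit false

namespace Pool.Agent.H67M

open MeasureTheory intervalIntegral Filter

theorem integrable_diff {a : ℕ → ℝ} (h0 : 1 < a 0) (hm : StrictMono a)
    (hs : N44b300f8.Erdos951Prop a) {Y : ℝ} (hY : 1 ≤ Y) :
    IntervalIntegrable (fun x : ℝ => ((cnt a x : ℝ) - Nat.primeCounting ⌊x⌋₊) / x ^ 2)
      volume 1 Y := by
  obtain ⟨hI, -⟩ := int_cnt h0 hm hs Y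
  obtain ⟨hJ, -⟩ := int_pi hY
  rw [intervalIntegrable_iff_integrableOn_Ioc_of_le hY]
  have h := hI.sub hJ
  refine h.congr (Filter.Eventually.of_forall fun x => ?_)
  simp only [Pi.sub_apply]
  ring

/-- A `1`-separated sequence cannot have at least `π x + f x` terms up to `x` for all large `x`,
if the integral of `f x / x ^ 2` tends to infinity. -/
theorem divergent {a : ℕ → ℝ} (h0 : 1 < a 0) (hm : StrictMono a)
    (hs : N44b300f8.Erdos951Prop a) {f : ℝ → ℝ}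
    (hf : ∀ Y : ℝ, 1 ≤ Y → IntervalIntegrable (fun x : ℝ => f x / x ^ 2) volume 1 Y)
    (hdiv : Tendsto (fun Y : ℝ => ∫ x in (1 : ℝ)..Y, f x / x ^ 2) atTop atTop) :
    ∃ᶠ x : ℝ in atTop, (cnt a x : ℝ) < Nat.primeCounting ⌊x⌋₊ + f x := by
  by_contra h
  rw [not_frequently] at h
  obtain ⟨X₁, hX₁⟩ := eventually_atTop.1 h
  obtain ⟨X₂, hX₂⟩ : ∃ X₂, X₂ = max X₁ 1 := ⟨_, rfl⟩
  have h12 : X₁ ≤ X₂ := hX₂ ▸ le_max_left _ _
  have h1 : 1 ≤ X₂ := hX₂ ▸ le_max_right _ _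
  obtain ⟨c, hc⟩ : ∃ c, c = (∫ x in (1 : ℝ)..X₂, f x / x ^ 2) -
    ∫ x in (1 : ℝ)..X₂, ((cnt a x : ℝ) - Nat.primeCounting ⌊x⌋₊) / x ^ 2 := ⟨_, rfl⟩
  obtain ⟨X₃, hX₃⟩ := eventually_atTop.1 (hdiv.eventually_gt_atTop (17 + c))
  obtain ⟨Y, hY1, -, hY⟩ := low h0 hm hs
    (X := max (max X₂ X₃) (Real.exp (Real.exp (Real.exp 1)))) (le_max_right _ _)
  have hY2 : X₂ ≤ Y := (le_max_left _ _).trans ((le_max_left _ _).trans hY1)
  have hY3 : X₃ ≤ Y := (le_max_right _ _).trans ((le_max_left _ _).trans hY1)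
  have h2 := hX₃ Y hY3
  have hY0 : 1 ≤ Y := h1.trans hY2
  have hD2 := integrable_diff h0 hm hs h1
  have hD := integrable_diff h0 hm hs hY0
  have hf2 := hf X₂ h1
  have hfY := hf Y hY0
  have h3 := integral_add_adjacent_intervals hD2 (hD2.symm.trans hD)
  have h4 := integral_add_adjacent_intervals hf2 (hf2.symm.trans hfY)
  have h5 : ∫ x in X₂..Y, f x / x ^ 2 ≤
      ∫ x in X₂..Y, ((cnt a x : ℝ) - Nat.primeCounting ⌊x⌋₊) / x ^ 2 := by
    refine integral_mono_on hY2 (hf2.symm.trans hfY) (hD2.symm.trans hD) fun x hx => ?_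
    have h6 := not_lt.1 (hX₁ x (h12.trans hx.1))
    exact div_le_div_of_nonneg_right (by linarith) (sq_nonneg x)
  linarith

end Pool.Agent.H67M
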