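import Pool.Agent.H67M.Win

/-!
# H67M/Low: the averaged excess is often bounded (MP_e2def7_nt)
-/

set_option autoImplicit false

namespace Pool.Agent.H67M

open Finset MeasureTheory intervalIntegral

/-- The sum of the reciprocals of the terms up to `x`. -/
noncomputable def rs (a : ℕ → ℝ) (x : ℝ) : ℝ := ∑ i ∈ idx a x, 1 / a i

theorem term_ge {b y σ : ℝ} (hb : 1 < b) (hby : b ≤ y) (hσ : 0 < σ) :
    y ^ (-σ) * (1 / b) ≤ b ^ (-(1 + σ)) := by
  have hb0 : 0 < b := by linarith
  have h1 : b ^ (-(1 + σ)) = b ^ (-σ) * (1 / b) := by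
    rw [show -(1 + σ) = -σ + -1 by ring, Real.rpow_add hb0, Real.rpow_neg_one, one_div]
  rw [h1]
  refine mul_le_mul_of_nonneg_right ?_ (by positivity)
  exact Real.rpow_le_rpow_of_nonpos hb0 hby (by linarith)

theorem abel_zero {a : ℕ → ℝ} (h0 : 1 < a 0) (hm : StrictMono a)
    (hs : N44b300f8.Erdos951Prop a) {y σ : ℝ} (hσ : 0 < σ) :
    y ^ (-σ) * rs a y ≤ ∑ i ∈ idx a y, (a i) ^ (-(1 + σ)) := by
  unfold rs
  rw [mul_sum]
  refine sum_le_sum fun i hi => ?_
  exact term_ge (h0.trans_le (hm.monotone (Nat.zero_le i))) ((mem_idx h0 hm hs).1 hi) hσ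

theorem abel_step {a : ℕ → ℝ} (h0 : 1 < a 0) (hm : StrictMono a)
    (hs : N44b300f8.Erdos951Prop a) {x y σ : ℝ} (hxy : x ≤ y) (hσ : 0 < σ) :
    ∑ i ∈ idx a x, (a i) ^ (-(1 + σ)) + y ^ (-σ) * (rs a y - rs a x) ≤
      ∑ i ∈ idx a y, (a i) ^ (-(1 + σ)) := by
  classical
  have hsub : idx a x ⊆ idx a y := by
    intro i hi
    rw [mem_idx h0 hm hs] at hi ⊢
    exact hi.trans hxy
  have h1 := sum_sdiff (f := fun i => (a i) ^ (-(1 + σ))) hsub
  have h2 := sum_sdiff (f := fun i => 1 / a i) hsub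
  have h3 : rs a y - rs a x = ∑ i ∈ idx a y \ idx a x, 1 / a i := by
    unfold rs
    linarith
  have h4 : y ^ (-σ) * (rs a y - rs a x) ≤ ∑ i ∈ idx a y \ idx a x, (a i) ^ (-(1 + σ)) := by
    rw [h3, mul_sum]
    refine sum_le_sum fun i hi => ?_
    exact term_ge (h0.trans_le (hm.monotone (Nat.zero_le i)))
      ((mem_idx h0 hm hs).1 (mem_sdiff.1 hi).1) hσ
  linarith

/-- Summation by parts. -/
theorem abel {a : ℕ → ℝ} (h0 : 1 < a 0) (hm : StrictMono a)
    (hs : N44b300f8.Erdos951Prop a) {σ M : ℝ} (hσ : 0 < σ) (x : ℕ → ℝ)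
    (hx0 : ∀ j, 0 < x j) (hxm : ∀ j, x j ≤ x (j + 1)) (n : ℕ)
    (hR : ∀ j ≤ n, M + j ≤ rs a (x j)) :
    (x 0) ^ (-σ) * M + ∑ j ∈ range n, (x (j + 1)) ^ (-σ) +
      (x n) ^ (-σ) * (rs a (x n) - (M + n)) ≤ ∑ i ∈ idx a (x n), (a i) ^ (-(1 + σ)) := by
  induction n with
  | zero =>
    have h1 := abel_zero h0 hm hs (y := x 0) hσ
    rw [range_zero, sum_empty, Nat.cast_zero]
    linarith
  | succ n ih =>
    have h1 := ih fun j hj => hR j (hj.trans (Nat.le_succ n))
    have h2 := abel_step h0 hm hs (hxm n) hσ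
    have h3 := hR n (Nat.le_succ n)
    have h4 : (x (n + 1)) ^ (-σ) ≤ (x n) ^ (-σ) :=
      Real.rpow_le_rpow_of_nonpos (hx0 n) (hxm n) (by linarith)
    have h5 : (x (n + 1)) ^ (-σ) * (rs a (x n) - (M + n)) ≤
        (x n) ^ (-σ) * (rs a (x n) - (M + n)) :=
      mul_le_mul_of_nonneg_right h4 (by linarith)
    rw [sum_range_succ]
    push_cast
    have h6 : (x (n + 1)) ^ (-σ) * (rs a (x (n + 1)) - (M + (n + 1))) =
        (x (n + 1)) ^ (-σ) * (rs a (x (n + 1)) - rs a (x n)) +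
          (x (n + 1)) ^ (-σ) * (rs a (x n) - (M + n)) - (x (n + 1)) ^ (-σ) := by ring
    rw [h6]
    linarith

/-- The averaged excess is at most `17` for some `Y` between `X` and `X ^ (log log X)`. -/
theorem low {a : ℕ → ℝ} (h0 : 1 < a 0) (hm : StrictMono a)
    (hs : N44b300f8.Erdos951Prop a) {X : ℝ} (hX : Real.exp (Real.exp (Real.exp 1)) ≤ X) :
    ∃ Y : ℝ, X ≤ Y ∧ Y ≤ X ^ Real.log (Real.log X) ∧
      ∫ x in (1 : ℝ)..Y, ((cnt a x : ℝ) - Nat.primeCounting ⌊x⌋₊) / x ^ 2 ≤ 17 := by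
  have he1 : (2.7 : ℝ) ≤ Real.exp 1 := by
    have := Real.exp_one_gt_d9
    linarith
  have he2 : Real.exp 1 ≤ 2.72 := by
    have := Real.exp_one_lt_d9
    linarith
  have hX0 : 0 < X := (Real.exp_pos _).trans_le hX
  have hlX : Real.exp (Real.exp 1) ≤ Real.log X := (Real.le_log_iff_exp_le hX0).2 hX
  have hlX0 : 0 < Real.log X := (Real.exp_pos _).trans_le hlX
  obtain ⟨L, hL⟩ : ∃ L, L = Real.log (Real.log X) := ⟨_, rfl⟩
  have hLe : Real.exp 1 ≤ L := by
    rw [hL]
    exact (Real.le_log_iff_exp_le hlX0).2 hlX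
  have hL0 : 0 < L := (Real.exp_pos _).trans_le hLe
  have hX16 : 16 ≤ X := by
    refine le_trans ?_ hX
    have h1 : (2.7 : ℝ) + 1 ≤ Real.exp (Real.exp 1) := by
      have := Real.add_one_le_exp (Real.exp 1)
      linarith
    have h2 : Real.exp 3 ≤ Real.exp (Real.exp (Real.exp 1)) := Real.exp_le_exp.2 (by linarith)
    have h3 : Real.exp 3 = Real.exp 1 ^ 3 := by
      rw [← Real.exp_nat_mul]
      norm_num
    have h4 : (2.7 : ℝ) ^ 3 ≤ Real.exp 1 ^ 3 := pow_le_pow_left₀ (by norm_num) he1 3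
    norm_num at h4
    linarith
  -- the number of steps
  obtain ⟨n, hn⟩ : ∃ n : ℕ, n = ⌊Real.log L⌋₊ := ⟨_, rfl⟩
  have hlogL : 1 ≤ Real.log L := (Real.le_log_iff_exp_le hL0).2 hLe
  have hn1 : 1 ≤ n := by
    rw [hn]
    exact Nat.le_floor (by exact_mod_cast hlogL)
  have hnL : Real.exp n ≤ L := by
    rw [← Real.le_log_iff_exp_le hL0, hn]
    exact Nat.floor_le (by linarith)
  have hLn : L < Real.exp (n + 1) := by
    rw [← Real.log_lt_iff_lt_exp hL0, hn]
    exact Nat.lt_floor_add_one _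
  -- the scales
  obtain ⟨x, hx⟩ : ∃ x : ℕ → ℝ, ∀ j, x j = Real.exp (Real.exp j * Real.log X) :=
    ⟨fun j => Real.exp (Real.exp j * Real.log X), fun j => rfl⟩
  have hxpos : ∀ j, 0 < x j := fun j => by rw [hx]; exact Real.exp_pos _
  have hx0 : x 0 = X := by
    rw [hx, Nat.cast_zero, Real.exp_zero, one_mul, Real.exp_log hX0]
  have hxm : ∀ j k, j ≤ k → x j ≤ x k := by
    intro j k hjk
    rw [hx, hx]
    refine Real.exp_le_exp.2 (mul_le_mul_of_nonneg_right (Real.exp_le_exp.2 ?_) hlX0.le)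
    exact_mod_cast hjk
  have hlx : ∀ j, Real.log (x j) = Real.exp j * Real.log X := fun j => by
    rw [hx, Real.log_exp]
  have hllx : ∀ j : ℕ, Real.log (Real.log (x j)) = L + j := fun j => by
    rw [hlx, Real.log_mul (Real.exp_pos _).ne' hlX0.ne', Real.log_exp, ← hL]
    ring
  -- some scale has few terms
  obtain ⟨j, hj, hjr⟩ : ∃ j ≤ n, rs a (x j) < L + 11 + j := by
    by_contra hcon
    push Not at hcon
    obtain ⟨σ, hσdef⟩ : ∃ σ, σ = 1 / (Real.exp n * Real.log X) := ⟨_, rfl⟩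
    have hσ : 0 < σ := by
      rw [hσdef]
      positivity
    have h1 := abel h0 hm hs hσ (M := L + 11) x hxpos (fun j => hxm j (j + 1) (Nat.le_succ j)) n
      hcon
    have h2 := sum_le h0 hm hs (idx a (x n)) (s := 1 + σ) (by linarith)
    have h3 : 0 ≤ (x n) ^ (-σ) * (rs a (x n) - (L + 11 + n)) :=
      mul_nonneg (Real.rpow_nonneg (hxpos n).le _) (by linarith [hcon n le_rfl])
    -- the weights
    have hw : ∀ j : ℕ, 1 - Real.exp (j - n) ≤ (x j) ^ (-σ) := by
      intro j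
      have h4 : (x j) ^ (-σ) = Real.exp (-Real.exp (j - n)) := by
        rw [Real.rpow_def_of_pos (hxpos j), hlx, hσdef, Real.exp_sub]
        congr 1
        have := (Real.exp_pos (n : ℝ)).ne'
        field_simp
      rw [h4]
      have := Real.add_one_le_exp (-Real.exp (j - n))
      linarith
    -- the left side
    have hsum : (n : ℝ) - 2 ≤ ∑ j ∈ range n, (x (j + 1)) ^ (-σ) := by
      have h4 : ∀ m : ℕ, ∑ j ∈ range m, Real.exp ((j : ℝ) + 1) ≤ 2 * Real.exp m := by
        intro m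
        induction m with
        | zero =>
          rw [range_zero, sum_empty]
          positivity
        | succ m ih =>
          rw [sum_range_succ]
          push_cast
          have h5 : Real.exp ((m : ℝ) + 1) = Real.exp m * Real.exp 1 := Real.exp_add _ _
          rw [h5]
          nlinarith [Real.exp_pos (m : ℝ)]
      have h5 : ∑ j ∈ range n, (1 - Real.exp (((j + 1 : ℕ) : ℝ) - n)) ≤
          ∑ j ∈ range n, (x (j + 1)) ^ (-σ) := sum_le_sum fun j _ => hw (j + 1)
      have h6 : ∑ j ∈ range n, Real.exp (((j + 1 : ℕ) : ℝ) - n) ≤ 2 := by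
        have h7 : ∑ j ∈ range n, Real.exp (((j + 1 : ℕ) : ℝ) - n) =
            (∑ j ∈ range n, Real.exp ((j : ℝ) + 1)) / Real.exp n := by
          rw [sum_div]
          refine sum_congr rfl fun j _ => ?_
          rw [Real.exp_sub]
          push_cast
          rfl
        rw [h7, div_le_iff₀ (Real.exp_pos _)]
        exact h4 n
      rw [sum_sub_distrib, sum_const, card_range, nsmul_eq_mul, mul_one] at h5
      linarith
    have hfirst : L + 11 - Real.exp (-(n : ℝ)) * (L + 11) ≤ (x 0) ^ (-σ) * (L + 11) := by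
      have h4 := hw 0
      rw [Nat.cast_zero, zero_sub] at h4
      have h5 := mul_le_mul_of_nonneg_right h4 (show 0 ≤ L + 11 by linarith)
      linarith
    have hen : Real.exp (-(n : ℝ)) * L ≤ Real.exp 1 := by
      have h4 : Real.exp (-(n : ℝ)) * L ≤ Real.exp (-(n : ℝ)) * Real.exp (n + 1) :=
        mul_le_mul_of_nonneg_left hLn.le (Real.exp_pos _).le
      rw [← Real.exp_add] at h4
      convert h4 using 2
      ring
    have hen1 : Real.exp (-(n : ℝ)) ≤ 1 / 2.7 := by
      have h4 : Real.exp (-(n : ℝ)) ≤ Real.exp (-1) :=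
        Real.exp_le_exp.2 (by
          have : (1 : ℝ) ≤ n := by exact_mod_cast hn1
          linarith)
      rw [Real.exp_neg 1] at h4
      refine h4.trans ?_
      rw [← one_div]
      exact one_div_le_one_div_of_le (by norm_num) he1
    -- the right side
    have hright : Real.log ((1 + σ) / (1 + σ - 1)) ≤ n + L + 1 := by
      have hσ1 : σ ≤ 1 := by
        rw [hσdef, div_le_one (by positivity)]
        have h4 : (1 : ℝ) ≤ Real.exp n := Real.one_le_exp (Nat.cast_nonneg n)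
        have h5 : (1 : ℝ) ≤ Real.log X := by
          have h6 := Real.add_one_le_exp (Real.exp 1)
          linarith
        exact one_le_mul_of_one_le_of_one_le h4 h5
      rw [show 1 + σ - 1 = σ by ring, Real.log_div (by linarith) hσ.ne']
      have h4 : Real.log (1 + σ) ≤ σ := by
        have := Real.log_le_sub_one_of_pos (show 0 < 1 + σ by linarith)
        linarith
      have h5 : Real.log σ = -(n + L) := by
        rw [hσdef, one_div, Real.log_inv, Real.log_mul (Real.exp_pos _).ne' hlX0.ne',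
          Real.log_exp, ← hL]
      rw [h5]
      linarith
    have : Real.exp (-(n : ℝ)) * (L + 11) ≤ 2.72 + 11 / 2.7 := by
      have : Real.exp (-(n : ℝ)) * (L + 11) =
          Real.exp (-(n : ℝ)) * L + 11 * Real.exp (-(n : ℝ)) := by ring
      rw [this]
      linarith
    norm_num at this
    linarith
  refine ⟨x j, ?_, ?_, ?_⟩
  · rw [← hx0]
    exact hxm 0 j (Nat.zero_le j)
  · refine (hxm j n hj).trans ?_
    rw [hx, Real.rpow_def_of_pos hX0, ← hL]
    refine Real.exp_le_exp.2 ?_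
    rw [mul_comm]
    exact mul_le_mul_of_nonneg_left hnL hlX0.le
  · have hY : 16 ≤ x j := hX16.trans (by rw [← hx0]; exact hxm 0 j (Nat.zero_le j))
    have hY1 : (1 : ℝ) ≤ x j := by linarith
    obtain ⟨hI1, hI2⟩ := int_cnt h0 hm hs (x j)
    obtain ⟨hJ1, hJ2⟩ := int_pi hY1
    rw [integral_of_le hY1]
    have h1 : ∫ t in Set.Ioc 1 (x j), ((cnt a t : ℝ) - Nat.primeCounting ⌊t⌋₊) / t ^ 2 =
        (∑ i ∈ idx a (x j), (1 / a i - 1 / x j)) -
          ∑ p ∈ C1M.PR ⌊x j⌋₊, (1 / (p : ℝ) - 1 / x j) := by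
      rw [← hI2, ← hJ2, ← integral_sub hI1 hJ1]
      refine integral_congr_ae (Filter.Eventually.of_forall fun t => ?_)
      simp only
      ring
    rw [h1]
    have h2 := pi_lower hY
    have h3 : ∑ i ∈ idx a (x j), (1 / a i - 1 / x j) ≤ rs a (x j) := by
      unfold rs
      refine sum_le_sum fun i _ => ?_
      have : 0 < 1 / x j := by
        have := hxpos j
        positivity
      linarith
    rw [hllx] at h2
    linarith

end Pool.Agent.H67M
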