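import Mathlib
import Pool.Prelude.Def_F_f983ba18
import Pool.Agent.PnMn.SumInv

/-!
# H67M/Sum: reciprocals of the terms of a separated sequence (MP_e2def7_nt)
-/

set_option autoImplicit false

namespace Pool.Agent.H67M

open Finset

/-- Real numbers `≥ 1` at mutual distance `≥ 1`. -/
theorem sep_sum {ι : Type} (T : Finset ι) (x : ι → ℝ) (h1 : ∀ i ∈ T, 1 ≤ x i)
    (hx : ∀ i ∈ T, ∀ j ∈ T, i ≠ j → 1 ≤ |x i - x j|) {s : ℝ} (hs : 1 < s) :
    ∑ i ∈ T, (x i) ^ (-s) ≤ s / (s - 1) := by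
  classical
  have hfl : ∀ i ∈ T, 1 ≤ ⌊x i⌋₊ := fun i hi => Nat.le_floor (by exact_mod_cast h1 i hi)
  have hinj : Set.InjOn (fun i => ⌊x i⌋₊ - 1) T := by
    intro i hi j hj hij
    by_contra hne
    have h2 := hfl i hi
    have h3 := hfl j hj
    have h4 : ⌊x i⌋₊ = ⌊x j⌋₊ := by
      simp only at hij
      omega
    have h5 := Nat.floor_le (zero_le_one.trans (h1 i hi))
    have h6 := Nat.floor_le (zero_le_one.trans (h1 j hj))
    have h7 := Nat.lt_floor_add_one (x i)
    have h8 := Nat.lt_floor_add_one (x j)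
    have h9 := hx i hi j hj hne
    rw [h4] at h5 h7
    have h10 : |x i - x j| < 1 := by
      rw [abs_lt]
      constructor <;> linarith
    linarith
  obtain ⟨N, hN⟩ : ∃ N : ℕ, ∀ i ∈ T, ⌊x i⌋₊ - 1 < N := by
    refine ⟨(T.sup fun i => ⌊x i⌋₊ - 1) + 1, fun i hi => ?_⟩
    have h2 : ⌊x i⌋₊ - 1 ≤ T.sup fun i => ⌊x i⌋₊ - 1 :=
      Finset.le_sup (f := fun i => ⌊x i⌋₊ - 1) hi
    omega
  calc ∑ i ∈ T, (x i) ^ (-s) ≤ ∑ i ∈ T, (((⌊x i⌋₊ - 1 : ℕ) : ℝ) + 1) ^ (-s) := by
        refine sum_le_sum fun i hi => ?_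
        have h2 := hfl i hi
        have h3 : (((⌊x i⌋₊ - 1 : ℕ) : ℝ) + 1) = (⌊x i⌋₊ : ℝ) := by
          rw [Nat.cast_sub h2]
          push_cast
          ring
        rw [h3]
        refine Real.rpow_le_rpow_of_nonpos (by exact_mod_cast h2) ?_ (by linarith)
        exact Nat.floor_le (zero_le_one.trans (h1 i hi))
    _ = ∑ n ∈ T.image (fun i => ⌊x i⌋₊ - 1), ((n : ℝ) + 1) ^ (-s) := by
        rw [sum_image hinj]
    _ ≤ ∑ n ∈ range N, ((n : ℝ) + 1) ^ (-s) := by
        refine sum_le_sum_of_subset_of_nonneg ?_ fun n _ _ => by positivity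
        intro n hn
        obtain ⟨i, hi, rfl⟩ := mem_image.1 hn
        exact mem_range.2 (hN i hi)
    _ ≤ s / (s - 1) := PnMn.sum_rpow_le hs N

/-- Products over finite sets of indices. -/
theorem sub_sep {a : ℕ → ℝ} (hs : N44b300f8.Erdos951Prop a) {B C : Finset ℕ} (h : B ≠ C) :
    1 ≤ |∏ i ∈ B, a i - ∏ i ∈ C, a i| := by
  classical
  have key : ∀ B : Finset ℕ,
      beurlingInteger a (Finsupp.indicator B (fun _ _ => 1)) = ∏ i ∈ B, a i := by
    intro B
    rw [beurlingInteger_def, Finsupp.prod_indicator_index]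
    · simp
    · simp
  have hne : (Finsupp.indicator B (fun _ _ => (1 : ℕ))) ≠ Finsupp.indicator C (fun _ _ => 1) := by
    intro heq
    apply h
    ext i
    have h1 := DFunLike.congr_fun heq i
    rw [Finsupp.indicator_apply, Finsupp.indicator_apply] at h1
    by_cases hB : i ∈ B <;> by_cases hC : i ∈ C
    · simp [hB, hC]
    · simp [hB, hC] at h1
    · simp [hB, hC] at h1
    · simp [hB, hC]
  have := hs _ _ hne
  rw [key, key] at this
  exact this

theorem prod_le {a : ℕ → ℝ} (h0 : 1 < a 0) (hm : StrictMono a) (hs : N44b300f8.Erdos951Prop a)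
    (F : Finset ℕ) {s : ℝ} (h1 : 1 < s) : ∏ i ∈ F, (1 + (a i) ^ (-s)) ≤ s / (s - 1) := by
  have hpos : ∀ i, 1 < a i := fun i => h0.trans_le (hm.monotone (Nat.zero_le i))
  rw [Finset.prod_one_add]
  calc ∑ B ∈ F.powerset, ∏ i ∈ B, (a i) ^ (-s) = ∑ B ∈ F.powerset, (∏ i ∈ B, a i) ^ (-s) := by
        refine sum_congr rfl fun B _ => ?_
        exact Real.finsetProd_rpow _ _ (fun i _ => (zero_lt_one.trans (hpos i)).le) _
    _ ≤ s / (s - 1) := by
        refine sep_sum F.powerset (fun B => ∏ i ∈ B, a i) ?_ ?_ h1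
        · intro B _
          calc (1 : ℝ) = ∏ _i ∈ B, (1 : ℝ) := by rw [prod_const_one]
            _ ≤ ∏ i ∈ B, a i :=
              prod_le_prod (fun _ _ => zero_le_one) fun i _ => (hpos i).le
        · intro B _ C _ hBC
          exact sub_sep hs hBC

theorem sum_le {a : ℕ → ℝ} (h0 : 1 < a 0) (hm : StrictMono a) (hs : N44b300f8.Erdos951Prop a)
    (F : Finset ℕ) {s : ℝ} (h1 : 1 < s) : ∑ i ∈ F, (a i) ^ (-s) ≤ Real.log (s / (s - 1)) + 1 := by
  have hpos : ∀ i, 1 < a i := fun i => h0.trans_le (hm.monotone (Nat.zero_le i))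
  have h2 : ∑ i ∈ F, Real.log (1 + (a i) ^ (-s)) ≤ Real.log (s / (s - 1)) := by
    rw [← Real.log_prod fun i _ => by
      have : 0 < (a i) ^ (-s) := Real.rpow_pos_of_pos (zero_lt_one.trans (hpos i)) _
      positivity]
    refine Real.log_le_log ?_ (prod_le h0 hm hs F h1)
    refine prod_pos fun i _ => ?_
    have : 0 < (a i) ^ (-s) := Real.rpow_pos_of_pos (zero_lt_one.trans (hpos i)) _
    positivity
  have h3 : ∑ i ∈ F, (a i) ^ (-(2 * s)) ≤ 2 * s / (2 * s - 1) := by
    refine sep_sum F a (fun i _ => (hpos i).le) ?_ (by linarith)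
    intro i _ j _ hij
    have h4 := sub_sep hs (B := {i}) (C := {j}) (by simpa using hij)
    simpa using h4
  have h4 : 2 * s / (2 * s - 1) ≤ 2 := by
    rw [div_le_iff₀ (by linarith)]
    linarith
  have h5 : ∀ i ∈ F, (a i) ^ (-s) - (a i) ^ (-(2 * s)) / 2 ≤ Real.log (1 + (a i) ^ (-s)) := by
    intro i _
    set u := (a i) ^ (-s) with hu
    have hu0 : 0 < u := Real.rpow_pos_of_pos (zero_lt_one.trans (hpos i)) _
    have h6 : (a i) ^ (-(2 * s)) = u ^ 2 := by
      rw [hu, ← Real.rpow_natCast, ← Real.rpow_mul (zero_lt_one.trans (hpos i)).le]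
      congr 1
      push_cast
      ring
    rw [h6]
    refine le_trans ?_ (Real.le_log_one_add_of_nonneg hu0.le)
    rw [le_div_iff₀ (by linarith)]
    nlinarith [pow_pos hu0 3]
  have h6 := sum_le_sum h5
  rw [sum_sub_distrib, ← sum_div] at h6
  linarith

/-- The uniform bound. -/
theorem mertens {a : ℕ → ℝ} (h0 : 1 < a 0) (hm : StrictMono a)
    (hs : N44b300f8.Erdos951Prop a) {Y : ℝ} (hY : 16 ≤ Y) (F : Finset ℕ)
    (hF : ∀ i ∈ F, a i ≤ Y) : ∑ i ∈ F, 1 / a i ≤
      Real.log (Real.log Y) + Real.log (Real.log (Real.log Y)) + 10 := by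
  have hpos : ∀ i, 1 < a i := fun i => h0.trans_le (hm.monotone (Nat.zero_le i))
  have hY0 : (0 : ℝ) < Y := by linarith
  have hl16 : Real.exp 1 ≤ Real.log 16 := by
    have h1 : Real.log 16 = 4 * Real.log 2 := by
      rw [show (16 : ℝ) = 2 ^ 4 by norm_num, Real.log_pow]
      norm_num
    have := Real.exp_one_lt_d9
    have := Real.log_two_gt_d9
    rw [h1]
    linarith
  have hlY : Real.exp 1 ≤ Real.log Y := hl16.trans (Real.log_le_log (by norm_num) hY)
  have hlY0 : 0 < Real.log Y := (Real.exp_pos 1).trans_le hlY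
  obtain ⟨L, hL⟩ : ∃ L, L = Real.log (Real.log Y) := ⟨_, rfl⟩
  have hL1 : 1 ≤ L := by
    rw [hL, Real.le_log_iff_exp_le hlY0]
    exact hlY
  have hL0 : 0 < L := by linarith
  have hℓ0 : 0 ≤ Real.log L := Real.log_nonneg hL1
  have hℓ1 : Real.log L ≤ L := (Real.log_le_sub_one_of_pos hL0).trans (by linarith)
  set t : ℝ := 1 / (Real.log Y * L) with ht
  have ht0 : 0 < t := by positivity
  have hlY1 : 1 ≤ Real.log Y := by
    have := Real.add_one_le_exp (1 : ℝ)
    linarith
  have hs1 : 1 < 1 + t := by linarith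
  have h1 := sum_le h0 hm hs F hs1
  have h2 : Real.log ((1 + t) / (1 + t - 1)) ≤ 1 + L + Real.log L := by
    have h3 : (1 + t) / (1 + t - 1) = 1 + Real.log Y * L := by
      rw [show 1 + t - 1 = t by ring, add_div, div_self ht0.ne', ht]
      field_simp
      ring
    have h4 : 1 ≤ Real.log Y * L := one_le_mul_of_one_le_of_one_le hlY1 hL1
    rw [h3]
    calc Real.log (1 + Real.log Y * L) ≤ Real.log (2 * (Real.log Y * L)) :=
          Real.log_le_log (by linarith) (by linarith)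
      _ = Real.log 2 + (L + Real.log L) := by
          rw [Real.log_mul (by norm_num) (by positivity), Real.log_mul hlY0.ne' hL0.ne', ← hL]
      _ ≤ 1 + L + Real.log L := by
          have := Real.log_two_lt_d9
          linarith
  have h5 : ∑ i ∈ F, 1 / a i ≤ Real.exp (1 / L) * ∑ i ∈ F, (a i) ^ (-(1 + t)) := by
    rw [mul_sum]
    refine sum_le_sum fun i hi => ?_
    have hai := hpos i
    have hai0 := zero_lt_one.trans hai
    have h6 : 1 / a i = (a i) ^ (-(1 + t)) * (a i) ^ t := by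
      rw [← Real.rpow_add hai0, show -(1 + t) + t = -1 by ring, Real.rpow_neg_one, one_div]
    have h7 : (a i) ^ t ≤ Real.exp (1 / L) := by
      calc (a i) ^ t ≤ Y ^ t := Real.rpow_le_rpow hai0.le (hF i hi) ht0.le
        _ = Real.exp (1 / L) := by
            rw [Real.rpow_def_of_pos hY0, ht]
            congr 1
            field_simp
    rw [h6, mul_comm]
    exact mul_le_mul_of_nonneg_right h7 (Real.rpow_pos_of_pos hai0 _).le
  have h8 : Real.exp (1 / L) ≤ 1 + 2 / L := by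
    have h9 : |1 / L| ≤ 1 := by
      rw [abs_of_pos (by positivity), div_le_one hL0]
      exact hL1
    have h10 := Real.abs_exp_sub_one_le h9
    have h11 := le_abs_self (Real.exp (1 / L) - 1)
    rw [abs_of_pos (by positivity : 0 < 1 / L)] at h10
    have : 2 * (1 / L) = 2 / L := by ring
    linarith
  have h9 : ∑ i ∈ F, (a i) ^ (-(1 + t)) ≤ L + Real.log L + 2 := by linarith
  rw [← hL]
  calc ∑ i ∈ F, 1 / a i ≤ Real.exp (1 / L) * ∑ i ∈ F, (a i) ^ (-(1 + t)) := h5
    _ ≤ (1 + 2 / L) * (L + Real.log L + 2) := by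
        refine mul_le_mul h8 h9 (sum_nonneg fun i _ => ?_) (by positivity)
        exact (Real.rpow_pos_of_pos (zero_lt_one.trans (hpos i)) _).le
    _ = L + Real.log L + 4 + 2 * (Real.log L / L) + 4 * (1 / L) := by
        field_simp
        ring
    _ ≤ L + Real.log L + 10 := by
        have h10 : Real.log L / L ≤ 1 := (div_le_one hL0).2 hℓ1
        have h11 : 1 / L ≤ 1 := (div_le_one hL0).2 hL1
        linarith

end Pool.Agent.H67M
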