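import Pool.Agent.H67M.Avg

/-!
# H67M/Win: no constant factor over the primes on a long interval (MP_e2def7_nt)
-/

set_option autoImplicit false

namespace Pool.Agent.H67M

open Finset MeasureTheory intervalIntegral

theorem pi_upper : ∃ C : ℝ, ∀ X : ℝ, 16 ≤ X →
    ∑ p ∈ C1M.PR ⌊X⌋₊, (1 / (p : ℝ) - 1 / X) ≤ Real.log (Real.log X) + C := by
  obtain ⟨C, hC⟩ := PnMn.sumInvPrimes
  refine ⟨C, fun X hX => ?_⟩
  have hX0 : 0 < X := by linarith
  have hz : 16 ≤ ⌊X⌋₊ := Nat.le_floor (by exact_mod_cast hX)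
  have hzR : (16 : ℝ) ≤ ⌊X⌋₊ := by exact_mod_cast hz
  have hzX : (⌊X⌋₊ : ℝ) ≤ X := Nat.floor_le hX0.le
  have hlz : 0 < Real.log ⌊X⌋₊ := Real.log_pos (by linarith)
  calc ∑ p ∈ C1M.PR ⌊X⌋₊, (1 / (p : ℝ) - 1 / X) ≤ ∑ p ∈ C1M.PR ⌊X⌋₊, 1 / (p : ℝ) := by
        refine sum_le_sum fun p _ => ?_
        have : 0 < 1 / X := by positivity
        linarith
    _ ≤ Real.log (Real.log ⌊X⌋₊) + C := hC ⌊X⌋₊ (by omega)
    _ ≤ Real.log (Real.log X) + C := by
        have h1 : Real.log ⌊X⌋₊ ≤ Real.log X := Real.log_le_log (by linarith) hzX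
        have h2 := Real.log_le_log hlz h1
        linarith

/-- A `1`-separated sequence cannot have `(1 + ε) π(x)` terms up to `x` for all `x` in
`[X, exp((log X)^(1 + 1/ε + δ))]`, if `X` is large in terms of `ε` and `δ` only. -/
theorem window (ε δ : ℝ) (hε : 0 < ε) (hδ : 0 < δ) : ∃ X₀ : ℝ, ∀ X : ℝ, X₀ ≤ X →
    ∀ a : ℕ → ℝ, 1 < a 0 → StrictMono a → N44b300f8.Erdos951Prop a →
      ∃ x : ℝ, X ≤ x ∧ x ≤ Real.exp (Real.log X ^ (1 + 1 / ε + δ)) ∧
        (({i : ℕ | a i ≤ x}.ncard : ℕ) : ℝ) < (1 + ε) * Nat.primeCounting ⌊x⌋₊ := by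
  obtain ⟨C, hC⟩ := pi_upper
  obtain ⟨θ, hθ⟩ : ∃ θ, θ = 1 + 1 / ε + δ := ⟨_, rfl⟩
  have hθ1 : 1 < θ := by
    rw [hθ]
    have : 0 < 1 / ε := by positivity
    linarith
  -- for large `L` the inequality fails
  have hlarge : ∀ᶠ L : ℝ in Filter.atTop,
      Real.log (θ * L) + 10 + (1 + ε) * (6 + C) < ε * δ * L := by
    have h1 : Filter.Tendsto (fun L : ℝ => ε * δ * L - Real.log L) Filter.atTop Filter.atTop := by
      have h2 : (fun L : ℝ => Real.log L) =o[Filter.atTop] fun L : ℝ => L :=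
        Real.isLittleO_log_id_atTop
      have h3 := h2.def (c := ε * δ / 2) (by positivity)
      refine Filter.tendsto_atTop_mono' _ ?_
        ((Filter.tendsto_id (α := ℝ) (x := Filter.atTop)).const_mul_atTop
          (show (0 : ℝ) < ε * δ / 2 by positivity))
      filter_upwards [h3, Filter.eventually_ge_atTop (0 : ℝ)] with L hL hL0
      rw [Real.norm_eq_abs, Real.norm_eq_abs, abs_of_nonneg hL0] at hL
      have := (abs_le.1 hL).2
      simp only [id]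
      linarith
    filter_upwards [h1.eventually_gt_atTop (Real.log θ + 10 + (1 + ε) * (6 + C)),
      Filter.eventually_gt_atTop (0 : ℝ)] with L hL hL0
    rw [Real.log_mul (by linarith) hL0.ne']
    linarith
  have hlog : Filter.Tendsto (fun X : ℝ => Real.log (Real.log X)) Filter.atTop Filter.atTop :=
    Real.tendsto_log_atTop.comp Real.tendsto_log_atTop
  obtain ⟨X₀, hX₀⟩ := Filter.eventually_atTop.1
    ((hlog.eventually hlarge).and (Filter.eventually_ge_atTop (16 : ℝ)))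
  refine ⟨X₀, fun X hX a h0 hm hs => ?_⟩
  obtain ⟨hL, hX16⟩ := hX₀ X hX
  rw [← hθ]
  by_contra hcon
  push Not at hcon
  obtain ⟨Z, hZ⟩ : ∃ Z, Z = Real.exp (Real.log X ^ θ) := ⟨_, rfl⟩
  rw [← hZ] at hcon
  have hX0 : 0 < X := by linarith
  have hlX1 : 1 ≤ Real.log X := by
    have h1 : Real.exp 1 ≤ 16 := by
      have := Real.exp_one_lt_d9
      linarith
    rw [Real.le_log_iff_exp_le hX0]
    linarith
  have hlX0 : 0 < Real.log X := by linarith
  have hXZ : X ≤ Z := by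
    rw [hZ, ← Real.log_le_iff_le_exp hX0]
    calc Real.log X = Real.log X ^ (1 : ℝ) := (Real.rpow_one _).symm
      _ ≤ Real.log X ^ θ := Real.rpow_le_rpow_of_exponent_le hlX1 hθ1.le
  have hZ16 : 16 ≤ Z := hX16.trans hXZ
  have hlZ : Real.log Z = Real.log X ^ θ := by rw [hZ, Real.log_exp]
  have hllZ : Real.log (Real.log Z) = θ * Real.log (Real.log X) := by
    rw [hlZ, Real.log_rpow hlX0]
  obtain ⟨hI1, hI2⟩ := int_cnt h0 hm hs Z
  obtain ⟨hJ1, hJ2⟩ := int_pi (Y := Z) (by linarith)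
  obtain ⟨hK1, hK2⟩ := int_pi (Y := X) (by linarith)
  -- the integral over `(X, Z]`
  have hsub : Set.Ioc X Z ⊆ Set.Ioc 1 Z := Set.Ioc_subset_Ioc_left (by linarith)
  have h1 : (1 + ε) * ∫ x in Set.Ioc X Z, (Nat.primeCounting ⌊x⌋₊ : ℝ) / x ^ 2 ≤
      ∫ x in Set.Ioc X Z, (cnt a x : ℝ) / x ^ 2 := by
    rw [← MeasureTheory.integral_const_mul]
    refine setIntegral_mono_on ((hJ1.mono_set hsub).const_mul _) (hI1.mono_set hsub)
      measurableSet_Ioc fun x hx => ?_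
    have h2 := hcon x hx.1.le hx.2
    have hx0 : 0 < x := hX0.trans hx.1
    rw [← mul_div_assoc]
    exact div_le_div_of_nonneg_right h2 (by positivity)
  have h2 : ∫ x in Set.Ioc X Z, (cnt a x : ℝ) / x ^ 2 ≤
      ∫ x in Set.Ioc 1 Z, (cnt a x : ℝ) / x ^ 2 := by
    refine setIntegral_mono_set hI1 (Filter.Eventually.of_forall fun x => ?_)
      hsub.eventuallyLE
    positivity
  have h3 : (∫ x in Set.Ioc 1 Z, (Nat.primeCounting ⌊x⌋₊ : ℝ) / x ^ 2) =
      (∫ x in Set.Ioc 1 X, (Nat.primeCounting ⌊x⌋₊ : ℝ) / x ^ 2) +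
        ∫ x in Set.Ioc X Z, (Nat.primeCounting ⌊x⌋₊ : ℝ) / x ^ 2 := by
    rw [← setIntegral_union _ measurableSet_Ioc hK1 (hJ1.mono_set hsub),
      Set.Ioc_union_Ioc_eq_Ioc (by linarith) hXZ]
    rw [Set.disjoint_left]
    intro x hx hx'
    exact absurd hx.2 (not_le_of_gt hx'.1)
  have h4 : ∑ i ∈ idx a Z, (1 / a i - 1 / Z) ≤
      Real.log (Real.log Z) + Real.log (Real.log (Real.log Z)) + 10 := by
    refine le_trans (sum_le_sum (g := fun i => 1 / a i) fun i _ => ?_)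
      (mertens h0 hm hs hZ16 (idx a Z) fun i hi => (mem_idx h0 hm hs).1 hi)
    have : 0 < 1 / Z := by positivity
    linarith
  have h5 := pi_lower hZ16
  have h6 := hC X hX16
  rw [hI2] at h2
  rw [hJ2, hK2] at h3
  rw [hllZ] at h4 h5
  set L := Real.log (Real.log X) with hLdef
  set P := ∫ x in Set.Ioc X Z, (Nat.primeCounting ⌊x⌋₊ : ℝ) / x ^ 2 with hP
  have h7 : θ * L - 6 - L - C ≤ P := by linarith
  have h8 : (1 + ε) * (θ * L - 6 - L - C) ≤ (1 + ε) * P :=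
    mul_le_mul_of_nonneg_left h7 (by linarith)
  have h9 : (1 + ε) * P ≤ θ * L + Real.log (θ * L) + 10 := h1.trans (h2.trans h4)
  have h10 : (1 + ε) * (θ * L - 6 - L - C) = θ * L + ε * δ * L - (1 + ε) * (6 + C) := by
    rw [hθ]
    field_simp
    ring
  linarith

end Pool.Agent.H67M
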